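import Pool.Agent.Helper65.HC.Goals
import Pool.Agent.Helper94.RT.PAR
import Pool.Agent.Helper28.Ram.Main

/-!
# Circuits with gates of unbounded fan-in: the simulation is a linear-space function
-/

namespace Pool.Agent.Helper83.HC

open Pool.Agent.Helper65.LinSpace Pool.Agent.Helper78.Mpc Pool.Agent.Helper28.Ram Finset
open Pool.Agent.Helper65.HC (LSM LSV_stmt)
open Pool.Agent.Helper69.Ram (pR_spec pR_le)
open Pool.Agent.Helper65

variable {α β : Type} [Ctx α] [Ctx β]

theorem lsm_comp {m : α → Pool.Agent.Helper65.HC.Mach} {C : α → ℕ} (h : LSM m C) {f : β → α}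
    (hf : LS f) :
    LSM (fun z => m (f z)) (fun z => C (f z)) where
  σ := LS.comp (g := fun z => (m z).σ) h.σ hf
  B := LS.comp (g := fun z => (m z).B) h.B hf
  K := LS.comp (g := fun z => (m z).K) h.K hf
  st := LS.comp (g := fun z => (m z).st) h.st hf
  step := LS.comp (g := fun z : α × ℕ × ℕ × ℕ × ℕ =>
      (m z.1).step z.2.1 z.2.2.1 z.2.2.2.1 z.2.2.2.2)
    (f := fun z : β × ℕ × ℕ × ℕ × ℕ => (f z.1, z.2)) h.step (by fun_prop)
  out := LS.comp (g := fun z : α × ℕ × ℕ => (m z.1).out z.2.1 z.2.2)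
    (f := fun z : β × ℕ × ℕ => (f z.1, z.2)) h.out (by fun_prop)
  bd := LS.comp (g := C) h.bd hf
  ok z := h.ok (f z)
  hC z := h.hC (f z)

/-! ### Bounds -/

theorem run_lt {m : Pool.Agent.Helper65.HC.Mach} (hm : m.Ok) (P V a b e n : ℕ) :
    nrec (dig (2 ^ m.σ) P e) (fun t q => m.step a (b + t) q (dig (2 ^ m.σ) V t)) n < 2 ^ m.σ := by
  cases n with
  | zero => exact dig_lt (by positivity) _ _
  | succ n =>
    rw [nrec_succ]
    exact hm.hstep _ _ _ _

theorem ini_lt {m : Pool.Agent.Helper65.HC.Mach} (hm : m.Ok) : m.ini < 2 ^ (m.σ * m.B) := by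
  rw [pow_mul]
  exact tab_lt fun _ _ => hm.hst

theorem adv_lt {m : Pool.Agent.Helper65.HC.Mach} (hm : m.Ok) (k j P V : ℕ) : m.adv k j P V < 2 ^ (m.σ * m.B) := by
  rw [pow_mul]
  exact tab_lt fun e _ => run_lt hm P V _ _ e m.B

theorem fin_lt {m : Pool.Agent.Helper65.HC.Mach} (hm : m.Ok) (k P n : ℕ) : m.fin k P n < 2 ^ (m.σ * n) := by
  unfold Pool.Agent.Helper65.HC.Mach.fin
  induction n with
  | zero => exact Nat.one_pos
  | succ n ih =>
    rw [nrec_succ]
    generalize nrec 0 (fun e V => V + 2 ^ (m.σ * e) * m.out (k * m.B + e)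
      (nrec (dig (2 ^ m.σ) P e)
        (fun t q => m.step (k * m.B + e) (k * m.B + t) q (dig (2 ^ m.σ) V t)) e)) n = V at ih ⊢
    have h1 := hm.hout (k * m.B + n) (nrec (dig (2 ^ m.σ) P n)
        (fun t q => m.step (k * m.B + n) (k * m.B + t) q (dig (2 ^ m.σ) V t)) n)
    generalize m.out (k * m.B + n) (nrec (dig (2 ^ m.σ) P n)
        (fun t q => m.step (k * m.B + n) (k * m.B + t) q (dig (2 ^ m.σ) V t)) n) = v at h1 ⊢
    rw [mul_add, mul_one, pow_add]
    generalize 2 ^ (m.σ * n) = u at ih ⊢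
    calc V + u * v < u + u * v := by omega
      _ = u * (v + 1) := by ring
      _ ≤ u * 2 ^ m.σ := Nat.mul_le_mul_left _ h1

theorem nF_lt {m : Pool.Agent.Helper65.HC.Mach} (hm : m.Ok) (u V : ℕ) : m.nF u V < 2 ^ (m.σ * m.B) := by
  unfold Pool.Agent.Helper65.HC.Mach.nF
  generalize hd : u % (m.K + 2) = d
  generalize hk : u / (m.K + 2) = k
  unfold ifz
  split_ifs
  · exact ini_lt hm
  · exact fin_lt hm _ _ _
  · exact adv_lt hm _ _ _ _

theorem ch_le (m : Pool.Agent.Helper65.HC.Mach) (u i : ℕ) : m.ch u i ≤ u + (m.K + 2) * (m.K + 2) := by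
  unfold Pool.Agent.Helper65.HC.Mach.ch
  have h1 : u % (m.K + 2) < m.K + 2 := Nat.mod_lt _ (by omega)
  have h2 : (u % (m.K + 2) - 1) * (m.K + 2) ≤ m.K * (m.K + 2) :=
    Nat.mul_le_mul_right _ (by omega)
  have h3 : (m.K + 2) * (m.K + 2) = m.K * (m.K + 2) + 2 * (m.K + 2) := by ring
  unfold ifz
  split_ifs <;> omega

/-! ### Linear space -/

section

variable {m : α → Pool.Agent.Helper65.HC.Mach} {C : α → ℕ}

theorem pow_le_C (h : LSM m C) (z : α) {n : ℕ} (hn : n ≤ (m z).B) :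
    2 ^ ((m z).σ * n) ≤ C z :=
  (Nat.pow_le_pow_right (by norm_num) (Nat.mul_le_mul_left _ hn)).trans (h.hC z)

theorem powσ_le_C (h : LSM m C) (z : α) : 2 ^ (m z).σ ≤ C z := by
  have := pow_le_C h z (n := 1) (h.ok z).hB
  rwa [mul_one] at this

theorem ls_powσ (h : LSM m C) : LS (fun z => 2 ^ (m z).σ) :=
  LS.pow_of_le (f := fun _ => 2) (LS.const 2) h.σ h.bd fun z => powσ_le_C h z

theorem ls_powB (h : LSM m C) : LS (fun z => 2 ^ ((m z).σ * (m z).B)) :=
  LS.pow_of_le (f := fun _ => 2) (LS.const 2) (LS.mul h.σ h.B) h.bd fun z => pow_le_C h z le_rfl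

theorem ls_step (h : LSM m C) {i j q v : α → ℕ} (hi : LS i) (hj : LS j) (hq : LS q) (hv : LS v) :
    LS (fun z => (m z).step (i z) (j z) (q z) (v z)) :=
  LS.comp (g := fun z : α × ℕ × ℕ × ℕ × ℕ => (m z.1).step z.2.1 z.2.2.1 z.2.2.2.1 z.2.2.2.2)
    (f := fun z => (z, i z, j z, q z, v z)) h.step
    (LS.prodMk LS.id (LS.prodMk hi (LS.prodMk hj (LS.prodMk hq hv))))

theorem ls_out (h : LSM m C) {i q : α → ℕ} (hi : LS i) (hq : LS q) :
    LS (fun z => (m z).out (i z) (q z)) :=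
  LS.comp (g := fun z : α × ℕ × ℕ => (m z.1).out z.2.1 z.2.2)
    (f := fun z => (z, i z, q z)) h.out (LS.prodMk LS.id (LS.prodMk hi hq))

theorem ls_run (h : LSM m C) {P V a b e n : α → ℕ} (hP : LS P) (hV : LS V) (ha : LS a) (hb : LS b)
    (he : LS e) (hn : LS n) :
    LS (fun z => nrec (dig (2 ^ (m z).σ) (P z) (e z))
      (fun t q => (m z).step (a z) (b z + t) q (dig (2 ^ (m z).σ) (V z) t)) (n z)) := by
  refine LS.nrec (G := fun z => dig (2 ^ (m z).σ) (P z) (e z)) (N := n) (C := C)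
    (K := fun z t q => (m z).step (a z) (b z + t) q (dig (2 ^ (m z).σ) (V z) t))
    (LS.dig (ls_powσ h) hP he) hn h.bd ?_ ?_
  · have h' : LSM (fun z : α × ℕ × ℕ => m z.1) (fun z => C z.1) := lsm_comp h LS.fst
    have hp := ls_powσ h'
    exact ls_step h' (i := fun z : α × ℕ × ℕ => a z.1) (j := fun z => b z.1 + z.2.1)
      (q := fun z => z.2.2) (by fun_prop) (by fun_prop) (by fun_prop)
      (LS.dig hp (by fun_prop) (by fun_prop))
  · intro z j _
    exact (run_lt (h.ok z) (P z) (V z) (a z) (b z) (e z) j).le.trans (powσ_le_C h z)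

theorem ls_ini (h : LSM m C) : LS (fun z => (m z).ini) := by
  unfold Pool.Agent.Helper65.HC.Mach.ini
  refine LS.tab (d := fun z _ => (m z).st) ?_ (ls_powσ h) h.B h.bd (fun z _ _ => (h.ok z).hst)
    fun z => ?_
  · have h' : LSM (fun z : α × ℕ => m z.1) (fun z => C z.1) := lsm_comp h LS.fst
    exact h'.st
  · rw [← pow_mul]
    exact h.hC z

theorem ls_adv (h : LSM m C) {k j P V : α → ℕ} (hk : LS k) (hj : LS j) (hP : LS P) (hV : LS V) :
    LS (fun z => (m z).adv (k z) (j z) (P z) (V z)) := by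
  unfold Pool.Agent.Helper65.HC.Mach.adv
  refine LS.tab (d := fun z e => nrec (dig (2 ^ (m z).σ) (P z) e)
    (fun t q => (m z).step (k z * (m z).B + e) (j z * (m z).B + t) q
      (dig (2 ^ (m z).σ) (V z) t)) (m z).B) ?_ (ls_powσ h) h.B h.bd
    (fun z e _ => run_lt (h.ok z) _ _ _ _ _ _) fun z => ?_
  · have h' : LSM (fun z : α × ℕ => m z.1) (fun z => C z.1) := lsm_comp h LS.fst
    have hB := h'.B
    exact ls_run h' (P := fun z : α × ℕ => P z.1) (V := fun z => V z.1)
      (a := fun z => k z.1 * (m z.1).B + z.2) (b := fun z => j z.1 * (m z.1).B)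
      (e := fun z => z.2) (by fun_prop) (by fun_prop) (by fun_prop) (by fun_prop) (by fun_prop) hB
  · rw [← pow_mul]
    exact h.hC z

theorem ls_fin (h : LSM m C) {k P : α → ℕ} (hk : LS k) (hP : LS P) :
    LS (fun z => (m z).fin (k z) (P z) (m z).B) := by
  have key : ∀ (z : α) (j : ℕ), j ≤ (m z).B →
      nrec 0 (fun e V => V + 2 ^ ((m z).σ * min e (m z).B) * (m z).out (k z * (m z).B + e)
        (nrec (dig (2 ^ (m z).σ) (P z) e)
          (fun t q => (m z).step (k z * (m z).B + e) (k z * (m z).B + t) q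
            (dig (2 ^ (m z).σ) V t)) e)) j = (m z).fin (k z) (P z) j := by
    intro z j
    unfold Pool.Agent.Helper65.HC.Mach.fin
    induction j with
    | zero => intro _; rfl
    | succ j ih =>
      intro hj
      rw [nrec_succ, nrec_succ, ih (by omega), min_eq_left (by omega : j ≤ (m z).B)]
  have hK : LS (fun p : α × ℕ × ℕ => p.2.2 + 2 ^ ((m p.1).σ * min p.2.1 (m p.1).B) *
      (m p.1).out (k p.1 * (m p.1).B + p.2.1)
        (nrec (dig (2 ^ (m p.1).σ) (P p.1) p.2.1)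
          (fun t q => (m p.1).step (k p.1 * (m p.1).B + p.2.1) (k p.1 * (m p.1).B + t) q
            (dig (2 ^ (m p.1).σ) p.2.2 t)) p.2.1)) := by
    have h' : LSM (fun z : α × ℕ × ℕ => m z.1) (fun z => C z.1) := lsm_comp h LS.fst
    have hB := h'.B
    have hσ := h'.σ
    have e1 : LS (fun p : α × ℕ × ℕ => 2 ^ ((m p.1).σ * min p.2.1 (m p.1).B)) :=
      LS.pow_of_le (f := fun _ => 2) (by fun_prop) (LS.mul hσ (LS.min (by fun_prop) hB)) h'.bd
        fun p => pow_le_C h p.1 (min_le_right _ _)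
    have e2 := ls_run h' (P := fun z : α × ℕ × ℕ => P z.1) (V := fun z => z.2.2)
      (a := fun z => k z.1 * (m z.1).B + z.2.1) (b := fun z => k z.1 * (m z.1).B)
      (e := fun z => z.2.1) (n := fun z => z.2.1) (by fun_prop) (by fun_prop) (by fun_prop)
      (by fun_prop) (by fun_prop) (by fun_prop)
    have e3 := ls_out h' (i := fun z : α × ℕ × ℕ => k z.1 * (m z.1).B + z.2.1) (by fun_prop) e2
    exact LS.add (by fun_prop) (LS.mul e1 e3)
  refine LS.congr (LS.nrec (G := fun _ => 0) (N := fun z => (m z).B) (C := C)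
    (K := fun z e V => V + 2 ^ ((m z).σ * min e (m z).B) * (m z).out (k z * (m z).B + e)
        (nrec (dig (2 ^ (m z).σ) (P z) e)
          (fun t q => (m z).step (k z * (m z).B + e) (k z * (m z).B + t) q
            (dig (2 ^ (m z).σ) V t)) e))
    (by fun_prop) h.B h.bd hK ?_) fun z => (key z _ le_rfl).symm
  intro z j hj
  rw [key z j hj]
  exact (fin_lt (h.ok z) _ _ _).le.trans (pow_le_C h z hj)

theorem ls_nF (h : LSM m C) {u V : α → ℕ} (hu : LS u) (hV : LS V) :
    LS (fun z => (m z).nF (u z) (V z)) := by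
  have hK := h.K
  have hB := ls_powB h
  have e1 : LS (fun z => u z % ((m z).K + 2)) := by fun_prop
  have e2 : LS (fun z => u z / ((m z).K + 2)) := by fun_prop
  have e3 : LS (fun z => dig (2 ^ ((m z).σ * (m z).B)) (V z) 0) := LS.dig hB hV (LS.const 0)
  have e4 : LS (fun z => dig (2 ^ ((m z).σ * (m z).B)) (V z) 1) := LS.dig hB hV (LS.const 1)
  have e5 : LS (fun z => u z % ((m z).K + 2) - 1) := by fun_prop
  unfold Pool.Agent.Helper65.HC.Mach.nF
  exact LS.ifz e1 (ls_ini h) (LS.ifz (LS.le01 e1 e2) (ls_fin h e2 e3) (ls_adv h e2 e5 e3 e4))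

theorem ls_ch (h : LSM m C) {u i : α → ℕ} (hu : LS u) (hi : LS i) :
    LS (fun z => (m z).ch (u z) (i z)) := by
  have hK := h.K
  unfold Pool.Agent.Helper65.HC.Mach.ch
  fun_prop

end

theorem two_pow_le_CT {t x : ℕ} (ht : t ≤ 2000 * (Nat.log 2 x + 1)) :
    2 ^ t ≤ Pool.Agent.Helper65.RT.CT x := by
  refine (Nat.pow_le_pow_right (by norm_num) ht).trans ((two_pow_log_le x 2000).trans ?_)
  exact Nat.pow_le_pow_right (by omega) (by norm_num)

/-- Packet HC-LSV. -/
theorem lsv : LSV_stmt := by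
  intro α _ m x i hx hi hm hb
  have hK := hm.K
  have hB := hm.B
  have hσ := hm.σ
  have hp : LS (fun z => pR (Nat.log 2 (x z))) := LS.pR (by fun_prop)
  have hpr := fun n => pR_spec n
  have hm2 : LSM (fun z : α × ℕ × ℕ => m z.1) (fun z => Pool.Agent.Helper65.RT.CT (x z.1)) :=
    lsm_comp hm LS.fst
  have hm1 : LSM (fun z : α × ℕ => m z.1) (fun z => Pool.Agent.Helper65.RT.CT (x z.1)) :=
    lsm_comp hm LS.fst
  have hpl : ∀ n, pR n ≤ 2 ^ (9 * ll n) := fun n =>
    (pR_le n).trans (Nat.pow_le_pow_right (by norm_num) (by have := ll_pos n; omega))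
  have hg : LS (fun z => gval 2 ((m z).σ * (m z).B) (m z).nF (fun _ => (m z).ini) (m z).ch
      (2 * (m z).K) (i z / (m z).B * ((m z).K + 2) + (i z / (m z).B + 1))) := by
    refine LS.gval (p := fun z => pR (Nat.log 2 (x z))) (D := fun _ => 2)
      (L := fun z => (m z).σ * (m z).B) (h := fun z => 2 * (m z).K)
      (root := fun z => i z / (m z).B * ((m z).K + 2) + (i z / (m z).B + 1))
      (G := fun z => ((m z).K + 2) * ((m z).K + 2))
      (C := fun z => Pool.Agent.Helper65.RT.CT (x z))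
      (F := fun z => (m z).nF) (leaf := fun z _ => (m z).ini) (ch := fun z => (m z).ch)
      hp (by fun_prop) (by fun_prop) (by fun_prop) (by fun_prop) (by fun_prop) hm.bd
      ?_ ?_ ?_ ?_ (fun z => (hpr _).1) ?_ ?_ (fun z => nF_lt (hm.ok z))
      (fun z _ => ini_lt (hm.ok z)) ?_ ?_
    · exact ls_nF hm2 (u := fun z : α × ℕ × ℕ => z.2.1) (V := fun z => z.2.2) (by fun_prop)
        (by fun_prop)
    · exact ls_ini hm1
    · exact ls_ch hm2 (u := fun z : α × ℕ × ℕ => z.2.1) (i := fun z => z.2.2) (by fun_prop)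
        (by fun_prop)
    · exact fun z u j => ch_le _ _ _
    · intro z
      have h1 := (hpr (Nat.log 2 (x z))).2.1
      have h2 : 2 ^ 4 ≤ (Nat.log 2 (x z) + 2) ^ 4 := Nat.pow_le_pow_left (by omega) 4
      show 2 < pR (Nat.log 2 (x z))
      omega
    · intro z
      have h1 := (hpr (Nat.log 2 (x z))).2.1
      have h2 := (hb z).1
      have h3 := Pool.Agent.Helper94.RT.qT_le (Nat.log 2 (x z))
      show 2 * ((m z).σ * (m z).B) < pR (Nat.log 2 (x z)) - 1
      generalize Nat.log 2 (x z) = n at *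
      have h8 : 8 * (n + 2) ≤ (n + 2) ^ 4 := by
        have e : (n + 2) ^ 4 = (n + 2) ^ 3 * (n + 2) := by ring
        rw [e]
        refine Nat.mul_le_mul_right _ ?_
        calc 8 = 2 ^ 3 := by norm_num
          _ ≤ (n + 2) ^ 3 := Nat.pow_le_pow_left (by omega) 3
      omega
    · intro z
      show pR (Nat.log 2 (x z)) ^ ((2 + 1) * ((m z).σ * (m z).B)) ≤ _
      refine (Nat.pow_le_pow_left (hpl _) _).trans ?_
      rw [← pow_mul]
      apply two_pow_le_CT
      have h3 := Pool.Agent.Helper94.RT.qT_ll (Nat.log 2 (x z))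
      calc 9 * ll (Nat.log 2 (x z)) * ((2 + 1) * ((m z).σ * (m z).B))
          = 27 * (((m z).σ * (m z).B) * ll (Nat.log 2 (x z))) := by ring
        _ ≤ 27 * (RT.qT (Nat.log 2 (x z)) * ll (Nat.log 2 (x z))) :=
            Nat.mul_le_mul_left _ (Nat.mul_le_mul_right _ (hb z).1)
        _ ≤ _ := by omega
    · intro z
      show MM (pR (Nat.log 2 (x z))) 2 ^ (2 * (m z).K) ≤ _
      have h1 : MM (pR (Nat.log 2 (x z))) 2 ≤ 2 ^ (12 * ll (Nat.log 2 (x z))) := by
        have h2 := ll_pos (Nat.log 2 (x z))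
        calc MM (pR (Nat.log 2 (x z))) 2 = (pR (Nat.log 2 (x z)) - 1) * 7 := rfl
          _ ≤ 2 ^ (9 * ll (Nat.log 2 (x z))) * 2 ^ (3 * ll (Nat.log 2 (x z))) := by
              refine Nat.mul_le_mul ((Nat.sub_le _ _).trans (hpl _)) ?_
              calc 7 ≤ 2 ^ 3 := by norm_num
                _ ≤ _ := Nat.pow_le_pow_right (by norm_num) (by omega)
          _ = _ := by
              rw [← pow_add]
              congr 1
              ring
      refine (Nat.pow_le_pow_left h1 _).trans ?_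
      rw [← pow_mul]
      apply two_pow_le_CT
      have h3 := Pool.Agent.Helper94.RT.qT_ll (Nat.log 2 (x z))
      calc 12 * ll (Nat.log 2 (x z)) * (2 * (m z).K)
          = 24 * ((m z).K * ll (Nat.log 2 (x z))) := by ring
        _ ≤ 24 * (RT.qT (Nat.log 2 (x z)) * ll (Nat.log 2 (x z))) :=
            Nat.mul_le_mul_left _ (Nat.mul_le_mul_right _ (hb z).2)
        _ ≤ _ := by omega
  unfold Pool.Agent.Helper65.HC.Mach.sim
  exact LS.dig (ls_powσ hm) hg (by fun_prop)

end Pool.Agent.Helper83.HC
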